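import Pool.Agent.X35.GV.Win
import Pool.Agent.X35.GV.Curve
import Pool.Agent.X35.GM.Seq2

/-!
# Primes with a prescribed coefficient `a_p` for ALL members near `α v_i` of ALL one-parameter families of elliptic curves,
outside a set of `α` of small dimension
-/

set_option autoImplicit false

namespace Pool.Agent.Results.MP_631487_nt.FamiliesNearSequences

open Finset Polynomial

/-- The number of the solutions `(x, y)` of `y² = x³ + A x + B` modulo `p`. -/
def points (p : ℕ) (A B : ℤ) : ℕ :=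
  ((range p ×ˢ range p).filter
    (fun xy : ℕ × ℕ => (p : ℤ) ∣ (xy.2 : ℤ) ^ 2 - ((xy.1 : ℤ) ^ 3 + A * xy.1 + B))).card

/-- `p` does not divide `2 (4 A³ + 27 B²)`, and `p + 1 - #E(𝔽_p) = p - points p A B = a` for `E : y² = x³ + A x + B`; this is the
coefficient `a_p` of the newform of `E`. -/
def HasCoeff (p : ℕ) (a A B : ℤ) : Prop := ¬ (p : ℤ) ∣ 2 * (4 * A ^ 3 + 27 * B ^ 2) ∧ (p : ℤ) - points p A B = a

open Classical in
/-- The number of the primes `p ≤ x` in the set `P`, `p ∤ 2 (4 A³ + 27 B²)`, with `a_p = a` for the curve `y² = x³ + A x + B`. -/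
noncomputable def count (P : Set ℕ) (A B a : ℤ) (x : ℕ) : ℕ :=
  (((range (x + 1)).filter (fun p => p.Prime ∧ p ∈ P)).filter (fun p => HasCoeff p a A B)).card

open Classical in
/-- The proportion of the residues `u` modulo `p` such that `y² = x³ + f(u) x + g(u)` has the coefficient `a_p = a`. -/
noncomputable def proportion (f g : ℤ[X]) (p : ℕ) (a : ℤ) : ℝ :=
  (((range p).filter (fun u : ℕ => HasCoeff p a (f.eval (u : ℤ)) (g.eval (u : ℤ)))).card : ℝ) / p

open Classical in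
/-- The expected number: the sum of these proportions over the primes `p ≤ x` in `P`. -/
noncomputable def expected (P : Set ℕ) (f g : ℤ[X]) (a : ℤ) (x : ℕ) : ℝ :=
  ∑ p ∈ (range (x + 1)).filter (fun p => p.Prime ∧ p ∈ P), proportion f g p a

theorem points_eq (p : ℕ) (A B : ℤ) : points p A B = Pool.Agent.X35.GV.points p A B := rfl

lemma hasCoeff_congr (p : ℕ) (t : ℤ) {A A' B B' : ℤ} (hA : A ≡ A' [ZMOD p]) (hB : B ≡ B' [ZMOD p]) :
    HasCoeff p t A B ↔ HasCoeff p t A' B' := by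
  unfold HasCoeff
  rw [points_eq, points_eq, Pool.Agent.X35.GV.points_congr p hA hB, Pool.Agent.X35.GV.disc_congr p hA hB]

lemma coeff_le {p x : ℕ} (hp : p ≤ x) {t A B : ℤ} (h : HasCoeff p t A B) : |t| ≤ (x : ℤ) ^ 2 := by
  have h1 := Pool.Agent.X35.GV.points_le p A B
  rw [← points_eq] at h1
  have h2 : ((points p A B : ℕ) : ℤ) ≤ (p : ℤ) * p := by exact_mod_cast h1
  have h3 : (p : ℤ) ≤ x := by exact_mod_cast hp
  have h4 : (0 : ℤ) ≤ p := by positivity
  have h6 : (p : ℤ) * p ≤ (x : ℤ) ^ 2 := by nlinarith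
  have h7 : (p : ℤ) ≤ p * p := by
    rcases Nat.eq_zero_or_pos p with h | h
    · rw [h]; simp
    · have : (1 : ℤ) ≤ p := by exact_mod_cast h
      nlinarith
  rw [← h.2, abs_le]
  constructor <;> linarith [Int.natCast_nonneg (points p A B)]

lemma card_Λ (x : ℕ) (hx : 2 ≤ x) : (((Icc (-((x : ℤ) ^ 2)) ((x : ℤ) ^ 2)).card : ℕ) : ℝ) ≤ (x : ℝ) ^ (4 : ℝ) := by
  have hxr : (2 : ℝ) ≤ x := by exact_mod_cast hx
  rw [Int.card_Icc]
  have e1 : ((((x : ℤ) ^ 2 + 1 - -((x : ℤ) ^ 2)).toNat : ℕ) : ℝ) = 2 * (x : ℝ) ^ 2 + 1 := by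
    have e2 : (((((x : ℤ) ^ 2 + 1 - -((x : ℤ) ^ 2)).toNat : ℕ) : ℤ) : ℝ) = (((x : ℤ) ^ 2 + 1 - -((x : ℤ) ^ 2) : ℤ) : ℝ) := by
      rw [Int.toNat_of_nonneg (by have : (0 : ℤ) ≤ (x : ℤ) ^ 2 := by positivity
                                  linarith)]
    push_cast at e2
    push_cast
    rw [e2]
    ring
  rw [e1, show (4 : ℝ) = ((4 : ℕ) : ℝ) by norm_num, Real.rpow_natCast]
  have e3 : (4 : ℝ) ≤ (x : ℝ) ^ 2 := by nlinarith
  nlinarith

/-- Let `δ > 0`. There are `κ > 0` and `C > 0` such that for all reals `v_i ≥ 1` with `∑ v_i ^ (-u) < ∞` for all `u > τ` (`τ ≥ 0`; for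
example `v_i = 2 ^ i`, `τ = 0`), all `θ < 1` and every sequence `P_0, P_1, ...` of sets of primes there is a set `E` of reals of Hausdorff
dimension at most `(1 - κ + τ) / (1 - θ)` with the following property. For every real `α > 0` outside `E`, ALL polynomials `f, g ∈ ℤ[T]`, every
set `P = P_k`, all `i ≥ i₀`, ALL integers `n` with `||n| - α v_i| ≤ v_i ^ θ`, ALL integers `x` with `(log |n|) ^ C ≤ x ≤ |n| ^ κ` and ALL
integers `a`: the number of the primes `p ≤ x` in `P` with `a_p = a` for the curve `y² = x³ + f(n) x + g(n)` differs from its expected value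
`V` (the sum over `p ≤ x` in `P` of the proportion of the residues `u` modulo `p` such that the curve of the family at `u` has the
coefficient `a`) by at most `(max 1 V) ^ (1 / 2) x ^ δ`. -/
theorem result (δ : ℝ) (hδ : 0 < δ) :
    ∃ κ C : ℝ, 0 < κ ∧ 0 < C ∧ ∀ (v : ℕ → ℝ) (τ θ : ℝ), (∀ i, 1 ≤ v i) → 0 ≤ τ → θ < 1 →
      (∀ u : ℝ, τ < u → Summable (fun i => v i ^ (-u))) → ∀ P : ℕ → Set ℕ,
      ∃ E : Set ℝ, dimH E ≤ ENNReal.ofReal ((1 - κ + τ) / (1 - θ)) ∧
        ∀ α : ℝ, 0 < α → α ∉ E → ∀ (f g : ℤ[X]) (k : ℕ), ∃ i₀ : ℕ, ∀ i : ℕ, i₀ ≤ i →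
          ∀ n : ℤ, |(|(n : ℝ)|) - α * v i| ≤ v i ^ θ →
            ∀ x : ℕ, Real.log |(n : ℝ)| ^ C ≤ x → (x : ℝ) ≤ |(n : ℝ)| ^ κ → ∀ a : ℤ,
              |(count (P k) (f.eval n) (g.eval n) a x : ℝ) - expected (P k) f g a x| ≤
                √(max 1 (expected (P k) f g a x)) * (x : ℝ) ^ δ := by
  classical
  obtain ⟨κ, hκ, hκ1, H⟩ := Pool.Agent.X35.GV.lawWin δ 4 1 hδ le_rfl
  refine ⟨κ, 2 / δ, hκ, by positivity, fun v τ θ hv1 hτ hθ hv P => ?_⟩
  haveI := Pool.Agent.X35.GM.countable_int_poly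
  obtain ⟨E, hE1, hE2⟩ := H v τ θ hv1 hτ hθ hv ((ℤ[X] × ℤ[X]) × ℕ) ℤ (fun _ x => Icc (-((x : ℤ) ^ 2)) ((x : ℤ) ^ 2))
    (fun _ x hx => card_Λ x hx) ℕ (fun c x _ => (range (x + 1)).filter (fun p => p.Prime ∧ p ∈ P c.2)) (fun _ _ p => p)
    (by
      intro c x l _ p hp
      rw [mem_filter, mem_range] at hp
      exact ⟨hp.2.1.two_le, by rw [pow_one]; omega⟩)
    (by
      intro c x l _ p hp p' hp' hne
      rw [mem_filter] at hp hp'
      exact (Nat.coprime_primes hp.2.1 hp'.2.1).2 hne)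
    (fun c a p n => HasCoeff p a (c.1.1.eval n) (c.1.2.eval n))
    (by
      intro c x a _ p _ m m' h
      have h' : m ≡ m' [ZMOD p] := h
      have hp : ∀ F : ℤ[X], F.eval m ≡ F.eval m' [ZMOD p] := by
        intro F
        rw [Int.modEq_iff_dvd]
        exact (Int.modEq_iff_dvd.1 h').trans (Polynomial.sub_dvd_eval_sub m' m F)
      exact hasCoeff_congr p a (hp _) (hp _))
  refine ⟨E, hE1, fun α hα hαE f g k => ?_⟩
  obtain ⟨i₀, hi₀⟩ := hE2 α hα hαE ((f, g), k)
  refine ⟨i₀, fun i hi n hn x hx1 hx2 a => ?_⟩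
  have hexp : expected (P k) f g a x = ∑ p ∈ (range (x + 1)).filter (fun p => p.Prime ∧ p ∈ P k),
      Pool.Agent.X35.GV.prob p (fun n => HasCoeff p a (f.eval n) (g.eval n)) := rfl
  by_cases ha : a ∈ Icc (-((x : ℤ) ^ 2)) ((x : ℤ) ^ 2)
  · have h := hi₀ i hi n hn x hx1 hx2 a ha
    rw [hexp]
    unfold count
    exact h
  · have hno : ∀ p ∈ (range (x + 1)).filter (fun p => p.Prime ∧ p ∈ P k), ∀ A B : ℤ, ¬ HasCoeff p a A B := by
      intro p hp A B h
      rw [mem_filter, mem_range] at hp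
      apply ha
      rw [mem_Icc]
      exact abs_le.1 (coeff_le (by omega) h)
    have h1 : count (P k) (f.eval n) (g.eval n) a x = 0 := by
      unfold count
      rw [card_eq_zero, filter_eq_empty_iff]
      intro p hp h
      exact hno p hp _ _ h
    have h2 : expected (P k) f g a x = 0 := by
      unfold expected
      refine sum_eq_zero fun p hp => ?_
      unfold proportion
      rw [filter_false_of_mem (fun u _ => hno p hp _ _), card_empty, Nat.cast_zero, zero_div]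
    rw [h1, h2, Nat.cast_zero, sub_self, abs_zero]
    positivity

end Pool.Agent.Results.MP_631487_nt.FamiliesNearSequences
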