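import Pool.Agent.X22.EQ21

/-!
# A normal law for the number of the primes with prescribed traces of Frobenius in arbitrarily thin families

Nothing is used besides Mathlib in the statement.
-/

set_option autoImplicit false

namespace Pool.Agent.Results.MP_631487_nt.FewDigitTracesNormalLaw

open Finset

/-- The value of the polynomial `F` at the vector `m`. -/
noncomputable def val {d : ℕ} (F : MvPolynomial (Fin d) ℤ) (m : Fin d → ℕ) : ℤ := MvPolynomial.eval (fun i => (m i : ℤ)) F

/-- The prime `p` is good for the curve `Y ^ 2 = X ^ 3 + A X + B`: it does not divide `2 (4 A ^ 3 + 27 B ^ 2)`. -/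
def Good (p : ℕ) (A B : ℤ) : Prop := ¬ (p : ℤ) ∣ 2 * (4 * A ^ 3 + 27 * B ^ 2)

/-- The trace `a_p` of Frobenius of the curve `Y ^ 2 = X ^ 3 + A X + B`: the prime `p` minus the number of the affine points over `ℤ/p`. -/
noncomputable def trace (p : ℕ) (A B : ℤ) : ℤ :=
  (p : ℤ) - (Nat.card {P : ZMod p × ZMod p // P.2 ^ 2 = P.1 ^ 3 + (A : ZMod p) * P.1 + (B : ZMod p)} : ℕ)

open Classical in
/-- The weight `w p` of the vector of the traces `a_p` of the curves `Y ^ 2 = X ^ 3 + F_j (m) X + G_j (m)`, if `p` is good for all of them, and `0` otherwise. -/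
noncomputable def weight {k d : ℕ} (F G : Fin k → MvPolynomial (Fin d) ℤ) (w : ℕ → (Fin k → ℤ) → ℝ) (p : ℕ) (m : Fin d → ℕ) : ℝ :=
  if ∀ j, Good p (val (F j) m) (val (G j) m) then w p (fun j => trace p (val (F j) m) (val (G j) m)) else 0

/-- The sum of the weights over the primes `p ≤ x`. -/
noncomputable def total {k d : ℕ} (F G : Fin k → MvPolynomial (Fin d) ℤ) (w : ℕ → (Fin k → ℤ) → ℝ) (x : ℕ) (m : Fin d → ℕ) : ℝ :=
  ∑ p ∈ (range (x + 1)).filter Nat.Prime, weight F G w p m

/-- The average of `H` over all vectors modulo `p`. -/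
noncomputable def average {d : ℕ} (p : ℕ) (H : (Fin d → ℕ) → ℝ) : ℝ :=
  (∑ m ∈ Fintype.piFinset (fun _ : Fin d => range p), H m) / (p : ℝ) ^ d

/-- The expected value: the sum over the primes `p ≤ x` of the average weight over all vectors modulo `p`. -/
noncomputable def expectation {k d : ℕ} (F G : Fin k → MvPolynomial (Fin d) ℤ) (w : ℕ → (Fin k → ℤ) → ℝ) (x : ℕ) : ℝ :=
  ∑ p ∈ (range (x + 1)).filter Nat.Prime, average p (weight F G w p)

/-- The variance: the sum over the primes `p ≤ x` of the average squared deviation of the weight over all vectors modulo `p`. -/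
noncomputable def variance {k d : ℕ} (F G : Fin k → MvPolynomial (Fin d) ℤ) (w : ℕ → (Fin k → ℤ) → ℝ) (x : ℕ) : ℝ :=
  ∑ p ∈ (range (x + 1)).filter Nat.Prime, average p (fun m => (weight F G w p m - average p (weight F G w p)) ^ 2)

/-- The digit number `i` (counted from the right, beginning with `0`) of `n` in base `b`. -/
def digit (b i n : ℕ) : ℕ := n / b ^ i % b

/-- The number which arises from the number `N` with at most `K` digits in base `b`, if for every `i ∈ S`
the digit number `i` is replaced by `f i`. -/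
def change (b K N : ℕ) (f : ℕ → ℕ) (S : Finset ℕ) : ℕ :=
  ∑ i ∈ range K, (if i ∈ S then f i else digit b i N) * b ^ i

open Classical in
/-- The number of the choices of `s l` of `K l` positions for all `l < d` for which the vector of the numbers obtained by
changing the digits of the `N l` at the chosen positions (according to `f l`) has the property `E`. -/
noncomputable def choices {d : ℕ} (b : ℕ) (K s N : Fin d → ℕ) (f : Fin d → ℕ → ℕ) (E : (Fin d → ℕ) → Prop) : ℕ :=
  ((Fintype.piFinset (fun l => powersetCard (s l) (range (K l)))).filter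
    (fun S => E (fun l => change b (K l) (N l) (f l) (S l)))).card

open Pool.Agent.X22.EQ Pool.Agent.TH894.NE

private lemma average_eq {d : ℕ} (p : ℕ) (H : (Fin d → ℕ) → ℝ) : average p H = mean d p H := by
  unfold average mean Pool.Agent.TH894.NE.box
  ring

private lemma val_cast {d : ℕ} (p : ℕ) (F : MvPolynomial (Fin d) ℤ) (m : Fin d → ℕ) :
    ((val F m : ℤ) : ZMod p) = ((val F (fun i => m i % p) : ℤ) : ZMod p) := by
  have h : ∀ n : Fin d → ℕ, ((val F n : ℤ) : ZMod p) = MvPolynomial.eval (fun i => (n i : ZMod p)) (MvPolynomial.map (Int.castRingHom (ZMod p)) F) := by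
    intro n
    unfold val
    have h1 := MvPolynomial.map_eval (Int.castRingHom (ZMod p)) (fun i => (n i : ℤ)) F
    have h2 : (⇑(Int.castRingHom (ZMod p)) ∘ fun i => (n i : ℤ)) = fun i => (n i : ZMod p) := by
      funext i
      simp
    rw [h2] at h1
    exact h1
  rw [h, h]
  congr 2
  funext i
  rw [ZMod.natCast_mod]

private lemma good_cast (p : ℕ) (A B A' B' : ℤ) (hA : (A : ZMod p) = A') (hB : (B : ZMod p) = B') : Good p A B ↔ Good p A' B' := by
  unfold Good
  rw [← ZMod.intCast_zmod_eq_zero_iff_dvd, ← ZMod.intCast_zmod_eq_zero_iff_dvd]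
  push_cast
  rw [hA, hB]

private lemma trace_cast (p : ℕ) (A B A' B' : ℤ) (hA : (A : ZMod p) = A') (hB : (B : ZMod p) = B') : trace p A B = trace p A' B' := by
  unfold trace
  rw [hA, hB]

private lemma weight_per {k d : ℕ} (F G : Fin k → MvPolynomial (Fin d) ℤ) (w : ℕ → (Fin k → ℤ) → ℝ) (p : ℕ) : Per p (weight F G w p) := by
  intro m
  have h1 : (∀ j, Good p (val (F j) m) (val (G j) m)) ↔ ∀ j, Good p (val (F j) (fun i => m i % p)) (val (G j) (fun i => m i % p)) :=
    forall_congr' fun j => good_cast p _ _ _ _ (val_cast p _ m) (val_cast p _ m)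
  unfold weight
  have h2 : (fun j => trace p (val (F j) m) (val (G j) m)) = fun j => trace p (val (F j) (fun i => m i % p)) (val (G j) (fun i => m i % p)) :=
    funext fun j => trace_cast p _ _ _ _ (val_cast p _ m) (val_cast p _ m)
  by_cases h : ∀ j, Good p (val (F j) m) (val (G j) m)
  · rw [if_pos h, if_pos (h1.1 h), h2]
  · rw [if_neg h, if_neg fun h' => h (h1.2 h')]

/-- **A normal law for the traces of Frobenius in thin families.** Let a base `b ≥ 2`, an integer `d ≥ 1`, `A > 0` and `ε > 0` be given. There is `c > 0` such that the following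
holds for all `k`, all polynomials `F_j`, `G_j` (`j = 1, ..., k`) in `d` variables with integer coefficients and all weights `w_p` of the vectors of `k` traces with `|w_p| ≤ A`,
for example the indicator functions of arbitrary sets, for all integers `r_l`, `K_l` (`l = 1, ..., d`) with `2 r_l ≤ K_l` and all `x` with `x ≤ exp (c √r_l)` for all `l`,
if the variance `V = variance F G w x` is at least `1 / c`.

Let `0 ≤ N_l < b ^ K_l` be arbitrary integers and prescribe for every position `j` a digit `f l j` different from the digit of `N_l` in base `b`. If one chooses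
`r_l` of the `K_l` positions and replaces the digits of `N_l` at these positions, then for every real `t` the proportion of the choices for which the vector `m` of the
numbers obtained satisfies
`∑_{p ≤ x} w_p (a_p (E_1), ..., a_p (E_k)) ≤ M + t √V`, where `E_j : Y ^ 2 = X ^ 3 + F_j (m) X + G_j (m)`, the sum is over the primes which are good for all these curves, and
`M = expectation F G w x`, differs from the value `Φ (t)` of the distribution function of the standard normal law by at most `ε`. -/
theorem result (b d : ℕ) (hb : 2 ≤ b) (hd : 1 ≤ d) (A ε : ℝ) (hA : 0 < A) (hε : 0 < ε) :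
    ∃ c : ℝ, 0 < c ∧ ∀ (k : ℕ) (F G : Fin k → MvPolynomial (Fin d) ℤ) (w : ℕ → (Fin k → ℤ) → ℝ), (∀ p τ, |w p τ| ≤ A) →
    ∀ (K r : Fin d → ℕ) (x : ℕ), (∀ l, 2 * r l ≤ K l) → (∀ l, (x : ℝ) ≤ Real.exp (c * Real.sqrt (r l))) → 1 / c ≤ variance F G w x →
    ∀ N : Fin d → ℕ, (∀ l, N l < b ^ K l) → ∀ f : Fin d → ℕ → ℕ, (∀ l j, f l j < b ∧ f l j ≠ digit b j (N l)) → ∀ t : ℝ,
      |(choices b K r N f (fun m => total F G w x m ≤ expectation F G w x + t * Real.sqrt (variance F G w x)) : ℝ) -
        (ProbabilityTheory.gaussianReal 0 1).real (Set.Iic t) * ∏ l, ((K l).choose (r l) : ℝ)| ≤ ε * ∏ l, ((K l).choose (r l) : ℝ) := by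
  classical
  obtain ⟨C₂, hC₂⟩ : ∃ C₂ : ℝ, C₂ = (A + A ^ 2) * (b * b + 1) := ⟨_, rfl⟩
  have hC₂0 : 0 ≤ C₂ := by rw [hC₂]; positivity
  obtain ⟨c₁, hc₁, key⟩ := clt_bdd b d hb hd A C₂ ε hA hC₂0 hε
  refine ⟨min c₁ 1, lt_min hc₁ one_pos, fun k F G w hw K r x hrK hxr hV N hN f hf t => ?_⟩
  obtain ⟨c, hc⟩ : ∃ c : ℝ, c = min c₁ 1 := ⟨_, rfl⟩
  rw [← hc] at hxr hV
  have hc0 : 0 < c := by rw [hc]; exact lt_min hc₁ one_pos
  have hca : c ≤ c₁ := by rw [hc]; exact min_le_left _ _
  have hcb : c ≤ 1 := by rw [hc]; exact min_le_right _ _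
  obtain ⟨V, hVe⟩ : ∃ V : ℝ, V = variance F G w x := ⟨_, rfl⟩
  rw [← hVe] at hV ⊢
  have hV0 : 0 < V := lt_of_lt_of_le (by positivity) hV
  have hwA : ∀ p m, |weight F G w p m| ≤ A := by
    intro p m
    unfold weight
    split_ifs
    · exact hw p _
    · rw [abs_zero]
      exact hA.le
  obtain ⟨I, hI⟩ : ∃ I : Finset ℕ, I = ((range (x + 1)).filter Nat.Prime).filter (fun p => b * b < p) := ⟨_, rfl⟩
  obtain ⟨J, hJ⟩ : ∃ J : Finset ℕ, J = ((range (x + 1)).filter Nat.Prime).filter (fun p => ¬ b * b < p) := ⟨_, rfl⟩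
  have hJ1 : ∀ p ∈ J, p.Prime := by
    intro p hp
    rw [hJ] at hp
    exact (mem_filter.1 (mem_filter.1 hp).1).2
  have hJc : (J.card : ℝ) ≤ b * b + 1 := by
    have h1 : J ⊆ range (b * b + 1) := by
      intro p hp
      rw [hJ] at hp
      have h2 := (mem_filter.1 hp).2
      rw [mem_range]
      omega
    have h3 := card_le_card h1
    rw [card_range] at h3
    exact_mod_cast h3
  have hsplit : ∀ u : ℕ → ℝ, ∑ p ∈ (range (x + 1)).filter Nat.Prime, u p - ∑ p ∈ I, u p = ∑ p ∈ J, u p := by
    intro u
    rw [hI, hJ, ← sum_filter_add_sum_filter_not ((range (x + 1)).filter Nat.Prime) (fun p => b * b < p) u]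
    ring
  have hJs : ∀ u : ℕ → ℝ, ∀ D : ℝ, 0 ≤ D → (∀ p ∈ J, |u p| ≤ D) → |∑ p ∈ J, u p| ≤ D * (b * b + 1) := by
    intro u D hD h
    refine (abs_sum_le_sum_abs _ _).trans ((sum_le_sum h).trans ?_)
    rw [sum_const, nsmul_eq_mul, mul_comm]
    exact mul_le_mul_of_nonneg_left hJc hD
  have hDA : A * (b * b + 1) ≤ C₂ := by
    rw [hC₂]
    apply mul_le_mul_of_nonneg_right _ (by positivity)
    nlinarith [sq_nonneg A]
  have hDA2 : A ^ 2 * (b * b + 1) ≤ C₂ := by
    rw [hC₂]
    apply mul_le_mul_of_nonneg_right _ (by positivity)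
    linarith
  have hvar_le : ∀ p, p.Prime → |vari d p (weight F G w p)| ≤ A ^ 2 := by
    intro p hp
    rw [abs_of_nonneg (vari_nonneg d p hp.one_lt.le _)]
    have h1 : mean d p (fun m => weight F G w p m ^ 2) ≤ A ^ 2 := by
      refine (mean_mono (G := fun _ => A ^ 2) fun m => ?_).trans (le_of_eq (mean_const d p hp.one_lt.le _))
      rw [← sq_abs]
      exact pow_le_pow_left₀ (abs_nonneg _) (hwA p m) 2
    unfold vari
    nlinarith [sq_nonneg (mean d p (weight F G w p))]
  have hVs : V = ∑ p ∈ (range (x + 1)).filter Nat.Prime, vari d p (weight F G w p) := by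
    rw [hVe]
    unfold variance
    refine sum_congr rfl fun p hp => ?_
    rw [average_eq, average_eq, vari_eq d p (mem_filter.1 hp).2.one_lt.le]
  have hv : |V - ∑ p ∈ I, vari d p (weight F G w p)| ≤ C₂ := by
    rw [hVs, hsplit]
    exact (hJs _ _ (by positivity) fun p hp => hvar_le p (hJ1 p hp)).trans hDA2
  have hz : |expectation F G w x - ∑ p ∈ I, mean d p (weight F G w p)| ≤ C₂ := by
    have h1 : expectation F G w x = ∑ p ∈ (range (x + 1)).filter Nat.Prime, mean d p (weight F G w p) := by
      unfold expectation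
      exact sum_congr rfl fun p _ => average_eq p _
    rw [h1, hsplit]
    exact (hJs _ _ hA.le fun p hp => abs_mean_le d p (hJ1 p hp).one_lt.le _ _ (hwA p)).trans hDA
  have hZ : ∀ m, |total F G w x m - ∑ p ∈ I, weight F G w p m| ≤ C₂ := by
    intro m
    have h1 : total F G w x m = ∑ p ∈ (range (x + 1)).filter Nat.Prime, weight F G w p m := rfl
    rw [h1, hsplit]
    exact (hJs _ _ hA.le fun p hp => hwA p m).trans hDA
  have h := key r K x hrK (fun i => by
      rcases Nat.eq_zero_or_pos x with h0 | h0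
      · rw [h0, Nat.cast_zero, Real.log_zero]
        have : 0 ≤ c₁ * (r i : ℝ) := by positivity
        simpa using this
      have hx0 : (0 : ℝ) < x := by exact_mod_cast h0
      have h1 : Real.log x ≤ c * Real.sqrt (r i) := by
        rw [Real.log_le_iff_le_exp hx0]
        exact hxr i
      have h2 : 0 ≤ Real.log x := Real.log_nonneg (by exact_mod_cast h0)
      calc Real.log x ^ 2 ≤ (c * Real.sqrt (r i)) ^ 2 := pow_le_pow_left₀ h2 h1 2
        _ = (c * c) * r i := by rw [mul_pow, Real.sq_sqrt (Nat.cast_nonneg _)]; ring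
        _ ≤ c₁ * r i := by
            apply mul_le_mul_of_nonneg_right _ (Nat.cast_nonneg _)
            nlinarith) N hN f hf I (fun p hp => by
      rw [hI, mem_filter, mem_filter, mem_range] at hp
      exact ⟨hp.1.2, hp.2, by omega⟩) (fun p => weight F G w p) (fun p _ => weight_per F G w p) (fun p _ m => hwA p m)
    V hv ((one_div_le_one_div_of_le hc0 hca).trans hV) (expectation F G w x) hz (total F G w x) hZ t
  have hev : ∀ m, ((total F G w x m - expectation F G w x) / Real.sqrt V ≤ t) ↔ total F G w x m ≤ expectation F G w x + t * Real.sqrt V := by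
    intro m
    rw [div_le_iff₀ (Real.sqrt_pos.2 hV0)]
    constructor <;> intro h <;> linarith
  have hcount : (choices b K r N f (fun m => total F G w x m ≤ expectation F G w x + t * Real.sqrt V) : ℝ) =
      (((Fintype.piFinset (fun i => powersetCard (r i) (range (K i)))).filter
      (fun S => (total F G w x (fun i => Pool.Agent.TH894.SM.change b (K i) (N i) (f i) (S i)) - expectation F G w x) / Real.sqrt V ≤ t)).card : ℝ) := by
    unfold choices
    congr 2
    apply filter_congr
    intro S _
    rw [hev]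
    rfl
  rw [hcount]
  exact h

end Pool.Agent.Results.MP_631487_nt.FewDigitTracesNormalLaw
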