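import Pool.Agent.Results.MP_631487_nt.FamiliesNearSequences
import Pool.Agent.X124.RP.LawP

/-!
# Primes with a prescribed coefficient `a_p` for the members at real powers and at denominators of Diophantine approximations
of ALL one-parameter families of elliptic curves

The members of the families are the curves `y² = x³ + f(n) x + g(n)` for the integers `n` with `|n| = m`, where `m` is the
denominator of a good rational approximation to a generic real number (for instance of a convergent of its continued
fraction expansion), the common denominator of a good approximation to a generic point of `ℝ ^ d`, or a natural number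
near `t ^ k` or near `k ^ t` for a generic real number `t`.
-/

set_option autoImplicit false

namespace Pool.Agent.Results.MP_631487_nt.PowersAndDenominators

open Finset Polynomial
open FamiliesNearSequences (count expected HasCoeff proportion)
open Pool.Agent.X124.RP (AtPowers AtExponents AtDenominators AtApproximations)

/-- The law for the members with the parameters `n = m` and `n = -m` of the family `y² = x³ + f(n) x + g(n)` and the set
`P_k` of primes, where `c = ((f, g), k)`: for ALL integers `x` with `(log m) ^ C ≤ x ≤ m ^ κ` and ALL integers `a` the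
number of the primes `p ≤ x` in `P_k` with `a_p = a` for the curve differs from its expected value `V` by at most
`(max 1 V) ^ (1 / 2) x ^ δ`. -/
def Good (κ C δ : ℝ) (P : ℕ → Set ℕ) (c : (ℤ[X] × ℤ[X]) × ℕ) (m : ℕ) : Prop :=
  ∀ n : ℤ, n.natAbs = m → ∀ x : ℕ, Real.log m ^ C ≤ x → (x : ℝ) ≤ (m : ℝ) ^ κ → ∀ a : ℤ,
    |(count (P c.2) (c.1.1.eval n) (c.1.2.eval n) a x : ℝ) - expected (P c.2) c.1.1 c.1.2 a x| ≤
      √(max 1 (expected (P c.2) c.1.1 c.1.2 a x)) * (x : ℝ) ^ δ

/-- Let `δ > 0`. There are `0 < κ ≤ 1 / 2` and `C > 0` such that for every sequence `P_0, P_1, ...` of sets of primes, with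
`s = 1 - κ`:

(1) near real powers: if `κ_n / log n → ∞` and `0 ≤ θ < 1` then for all `t > 1` outside a set of Hausdorff dimension at most
`s / (1 - θ)`, and for almost all `t > 1` if `θ < κ`, for ALL families and all `P_k`, the law holds at all `m` with
`|m - t ^ κ_n| ≤ t ^ (θ κ_n)`, for all large `n`;
(2) near `n ^ t`: the same for all `t ≥ b` outside a set of dimension at most `(s + 1 / b) / (1 - θ)`, and for almost all
`t > 1 / (κ - θ)` if `θ < κ`;
(3) at denominators: if `θ, y ∈ ℝ ^ d`, `θ_i ≥ 0` and `θ_1 + ... + θ_d > s`, then for almost all `x ∈ ℝ ^ d`, for ALL families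
and all `P_k`, the law holds at all large `q` such that `q x_i` is within `q ^ (-θ_i)` of `y_i` modulo `1`, for all `i`;
(4) for `d = 1` and all `θ ≥ 0` this is true for all `x` outside a set of dimension at most `(1 + s) / (1 + θ)`. -/
theorem result (δ : ℝ) (hδ : 0 < δ) :
    ∃ κ C : ℝ, 0 < κ ∧ κ ≤ 1 / 2 ∧ 0 < C ∧ ∀ P : ℕ → Set ℕ,
      AtPowers (Good κ C δ P) (1 - κ) ∧ AtExponents (Good κ C δ P) (1 - κ) ∧
      AtDenominators (Good κ C δ P) (1 - κ) ∧ AtApproximations (Good κ C δ P) (1 - κ) := by
  classical
  obtain ⟨κ, hκ, hκ1, H⟩ := Pool.Agent.X124.RP.lawP δ 4 1 hδ le_rfl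
  refine ⟨κ, 2 / δ, hκ, hκ1, by positivity, fun P => ?_⟩
  haveI := Pool.Agent.X35.GM.countable_int_poly
  refine Pool.Agent.X124.RP.many (Good κ (2 / δ) δ P) (by linarith) fun c => ?_
  have h := H ((ℤ[X] × ℤ[X]) × ℕ) ℤ (fun _ x => Icc (-((x : ℤ) ^ 2)) ((x : ℤ) ^ 2))
    (fun _ x hx => FamiliesNearSequences.card_Λ x hx) ℕ (fun c x _ => (range (x + 1)).filter (fun p => p.Prime ∧ p ∈ P c.2)) (fun _ _ p => p)
    (by
      intro c x l _ p hp
      rw [mem_filter, mem_range] at hp
      exact ⟨hp.2.1.two_le, by rw [pow_one]; omega⟩)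
    (by
      intro c x l _ p hp p' hp' hne
      rw [mem_filter] at hp hp'
      exact (Nat.coprime_primes hp.2.1 hp'.2.1).2 hne)
    (fun c a p n => HasCoeff p a (c.1.1.eval n) (c.1.2.eval n))
    (by
      intro c x a _ p _ m m' h
      have h' : m ≡ m' [ZMOD p] := h
      have hp : ∀ F : ℤ[X], F.eval m ≡ F.eval m' [ZMOD p] := by
        intro F
        rw [Int.modEq_iff_dvd]
        exact (Int.modEq_iff_dvd.1 h').trans (Polynomial.sub_dvd_eval_sub m' m F)
      exact FamiliesNearSequences.hasCoeff_congr p a (hp _) (hp _)) c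
  refine h.mono' fun m hm hlaw => hm fun n hn x hx1 hx2 a => ?_
  obtain ⟨⟨f, g⟩, k⟩ := c
  have hexp : expected (P k) f g a x = ∑ p ∈ (range (x + 1)).filter (fun p => p.Prime ∧ p ∈ P k),
      Pool.Agent.X35.GV.prob p (fun n => HasCoeff p a (f.eval n) (g.eval n)) := rfl
  by_cases ha : a ∈ Icc (-((x : ℤ) ^ 2)) ((x : ℤ) ^ 2)
  · have h := hlaw n hn x hx1 hx2 a ha
    simp only
    rw [hexp]
    unfold count
    exact h
  · have hno : ∀ p ∈ (range (x + 1)).filter (fun p => p.Prime ∧ p ∈ P k), ∀ A B : ℤ, ¬ HasCoeff p a A B := by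
      intro p hp A B h
      rw [mem_filter, mem_range] at hp
      apply ha
      rw [mem_Icc]
      exact abs_le.1 (FamiliesNearSequences.coeff_le (by omega) h)
    have h1 : count (P k) (f.eval n) (g.eval n) a x = 0 := by
      unfold count
      rw [card_eq_zero, filter_eq_empty_iff]
      intro p hp h
      exact hno p hp _ _ h
    have h2 : expected (P k) f g a x = 0 := by
      unfold expected
      refine sum_eq_zero fun p hp => ?_
      unfold proportion
      rw [filter_false_of_mem (fun u _ => hno p hp _ _), card_empty, Nat.cast_zero, zero_div]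
    simp only
    rw [h1, h2, Nat.cast_zero, sub_self, abs_zero]
    positivity

end Pool.Agent.Results.MP_631487_nt.PowersAndDenominators
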