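import Pool.Agent.X20.Tr.Law
import Pool.Agent.X35.GV.Curve
import Pool.Agent.X35.GM.Seq2

/-!
# Primes with a prescribed coefficient `a_p` for the members of ALL one-parameter families of elliptic curves
at almost all of the integers `h ± ⌊α n ^ c⌋`
-/

set_option autoImplicit false

namespace Pool.Agent.Results.MP_631487_nt.SparseMembers

open Finset Polynomial

/-- The number of the solutions `(x, y)` of `y² = x³ + A x + B` modulo `p`. -/
def points (p : ℕ) (A B : ℤ) : ℕ :=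
  ((range p ×ˢ range p).filter
    (fun xy : ℕ × ℕ => (p : ℤ) ∣ (xy.2 : ℤ) ^ 2 - ((xy.1 : ℤ) ^ 3 + A * xy.1 + B))).card

/-- `p` does not divide `2 (4 A³ + 27 B²)`, and `p + 1 - #E(𝔽_p) = p - points p A B = a` for `E : y² = x³ + A x + B`; this is the
coefficient `a_p` of the newform of `E`. -/
def HasCoeff (p : ℕ) (a A B : ℤ) : Prop := ¬ (p : ℤ) ∣ 2 * (4 * A ^ 3 + 27 * B ^ 2) ∧ (p : ℤ) - points p A B = a

open Classical in
/-- The number of the primes `p ≤ x` in the set `P`, `p ∤ 2 (4 A³ + 27 B²)`, with `a_p = a` for the curve `y² = x³ + A x + B`. -/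
noncomputable def count (P : Set ℕ) (A B a : ℤ) (x : ℕ) : ℕ :=
  (((range (x + 1)).filter (fun p => p.Prime ∧ p ∈ P)).filter (fun p => HasCoeff p a A B)).card

open Classical in
/-- The proportion of the residues `u` modulo `p` such that `y² = x³ + f(u) x + g(u)` has the coefficient `a_p = a`. -/
noncomputable def proportion (f g : ℤ[X]) (p : ℕ) (a : ℤ) : ℝ :=
  (((range p).filter (fun u : ℕ => HasCoeff p a (f.eval (u : ℤ)) (g.eval (u : ℤ)))).card : ℝ) / p

open Classical in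
/-- The expected number: the sum of these proportions over the primes `p ≤ x` in `P`. -/
noncomputable def expected (P : Set ℕ) (f g : ℤ[X]) (a : ℤ) (x : ℕ) : ℝ :=
  ∑ p ∈ (range (x + 1)).filter (fun p => p.Prime ∧ p ∈ P), proportion f g p a

/-- For some integer `x` with `(log |m|) ^ C ≤ x ≤ |m| ^ κ` and some integer `a` the number of the primes `p ≤ x` in `P` with `a_p = a`
for `y² = x³ + f(m) x + g(m)` differs from its expected value `V` by more than `(max 1 V) ^ (1 / 2) x ^ δ`. -/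
def Irregular (P : Set ℕ) (f g : ℤ[X]) (δ C κ : ℝ) (m : ℤ) : Prop :=
  ∃ x : ℕ, (Real.log |(m : ℝ)|) ^ C ≤ x ∧ (x : ℝ) ≤ |(m : ℝ)| ^ κ ∧ ∃ a : ℤ,
    √(max 1 (expected P f g a x)) * (x : ℝ) ^ δ < |(count P (f.eval m) (g.eval m) a x : ℝ) - expected P f g a x|

theorem points_eq (p : ℕ) (A B : ℤ) : points p A B = Pool.Agent.X35.GV.points p A B := rfl

lemma hasCoeff_congr (p : ℕ) (t : ℤ) {A A' B B' : ℤ} (hA : A ≡ A' [ZMOD p]) (hB : B ≡ B' [ZMOD p]) :
    HasCoeff p t A B ↔ HasCoeff p t A' B' := by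
  unfold HasCoeff
  rw [points_eq, points_eq, Pool.Agent.X35.GV.points_congr p hA hB, Pool.Agent.X35.GV.disc_congr p hA hB]

lemma coeff_le {p x : ℕ} (hp : p ≤ x) {t A B : ℤ} (h : HasCoeff p t A B) : |t| ≤ (x : ℤ) ^ 2 := by
  have h1 := Pool.Agent.X35.GV.points_le p A B
  rw [← points_eq] at h1
  have h2 : ((points p A B : ℕ) : ℤ) ≤ (p : ℤ) * p := by exact_mod_cast h1
  have h3 : (p : ℤ) ≤ x := by exact_mod_cast hp
  have h4 : (0 : ℤ) ≤ p := by positivity
  have h6 : (p : ℤ) * p ≤ (x : ℤ) ^ 2 := by nlinarith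
  have h7 : (p : ℤ) ≤ p * p := by
    rcases Nat.eq_zero_or_pos p with h | h
    · rw [h]; simp
    · have : (1 : ℤ) ≤ p := by exact_mod_cast h
      nlinarith
  rw [← h.2, abs_le]
  constructor <;> linarith [Int.natCast_nonneg (points p A B)]

lemma card_Λ (x : ℕ) (hx : 2 ≤ x) : (((Icc (-((x : ℤ) ^ 2)) ((x : ℤ) ^ 2)).card : ℕ) : ℝ) ≤ (x : ℝ) ^ (4 : ℝ) := by
  have hxr : (2 : ℝ) ≤ x := by exact_mod_cast hx
  rw [Int.card_Icc]
  have e1 : ((((x : ℤ) ^ 2 + 1 - -((x : ℤ) ^ 2)).toNat : ℕ) : ℝ) = 2 * (x : ℝ) ^ 2 + 1 := by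
    have e2 : (((((x : ℤ) ^ 2 + 1 - -((x : ℤ) ^ 2)).toNat : ℕ) : ℤ) : ℝ) = (((x : ℤ) ^ 2 + 1 - -((x : ℤ) ^ 2) : ℤ) : ℝ) := by
      rw [Int.toNat_of_nonneg (by have : (0 : ℤ) ≤ (x : ℤ) ^ 2 := by positivity
                                  linarith)]
    push_cast at e2
    push_cast
    rw [e2]
    ring
  rw [e1, show (4 : ℝ) = ((4 : ℕ) : ℝ) by norm_num, Real.rpow_natCast]
  have e3 : (4 : ℝ) ≤ (x : ℝ) ^ 2 := by nlinarith
  nlinarith

open Classical in
/-- Let `c > 1`. There is `κ₀ > 0` such that for every sequence `P_0, P_1, ...` of sets of primes there is a set `E` of reals of Hausdorff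
dimension at most `1 - κ₀` with the following property. For every `δ > 0` there are `C, κ > 0` such that for every real `α > 0` outside
`E`, ALL polynomials `f, g ∈ ℤ[T]`, every set `P = P_k`, every integer `h` and every sign `s`, for all large `N`, all but at most
`N ^ (1 - κ)` of the `n ≤ N` have, for `m = h + s ⌊α n ^ c⌋`: for ALL integers `x` with `(log |m|) ^ C ≤ x ≤ |m| ^ κ` and ALL integers
`a` the number of the primes `p ≤ x` in `P` with `a_p = a` for the curve `y² = x³ + f(m) x + g(m)` differs from its expected value `V`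
(the sum over `p ≤ x` in `P` of the proportion of the residues `u` modulo `p` such that the curve of the family at `u` has the
coefficient `a`) by at most `(max 1 V) ^ (1 / 2) x ^ δ`. -/
theorem result (c : ℝ) (hc : 1 < c) : ∃ κ₀ : ℝ, 0 < κ₀ ∧ κ₀ < 1 ∧ ∀ P : ℕ → Set ℕ,
    ∃ E : Set ℝ, dimH E ≤ ENNReal.ofReal (1 - κ₀) ∧ ∀ δ : ℝ, 0 < δ → ∃ C κ : ℝ, 0 < C ∧ 0 < κ ∧
      ∀ α : ℝ, 0 < α → α ∉ E → ∀ (f g : ℤ[X]) (k : ℕ) (h s : ℤ), (s = 1 ∨ s = -1) → ∃ N₀ : ℕ, ∀ N : ℕ, N₀ ≤ N →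
        (((Icc 1 N).filter (fun n : ℕ => Irregular (P k) f g δ C κ
          (h + s * ((⌊α * (n : ℝ) ^ c⌋₊ : ℕ) : ℤ)))).card : ℝ) ≤ (N : ℝ) ^ (1 - κ) := by
  obtain ⟨κ₀, hκ0, hκ1, H⟩ := Pool.Agent.X20.Tr.lawSparse c hc
  refine ⟨κ₀, hκ0, hκ1, fun P => ?_⟩
  have := Pool.Agent.X35.GM.countable_int_poly
  obtain ⟨E, hE1, hE2⟩ := H 4 1 le_rfl ((ℤ[X] × ℤ[X]) × ℕ) ℤ (fun _ x => Icc (-((x : ℤ) ^ 2)) ((x : ℤ) ^ 2))
    (fun _ x hx => card_Λ x hx) ℕ (fun i x _ => (range (x + 1)).filter (fun p => p.Prime ∧ p ∈ P i.2)) (fun _ _ p => p)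
    (by
      intro i x l _ p hp
      rw [mem_filter, mem_range] at hp
      exact ⟨hp.2.1.two_le, by rw [pow_one]; omega⟩)
    (by
      intro i x l _ p hp p' hp' hne
      rw [mem_filter] at hp hp'
      exact (Nat.coprime_primes hp.2.1 hp'.2.1).2 hne)
    (fun i a p n => HasCoeff p a (i.1.1.eval n) (i.1.2.eval n))
    (by
      intro i x a _ p _ m m' h
      have h' : m ≡ m' [ZMOD p] := h
      have hp : ∀ F : ℤ[X], F.eval m ≡ F.eval m' [ZMOD p] := by
        intro F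
        rw [Int.modEq_iff_dvd]
        exact (Int.modEq_iff_dvd.1 h').trans (Polynomial.sub_dvd_eval_sub m' m F)
      exact hasCoeff_congr p a (hp _) (hp _))
  refine ⟨E, hE1, fun δ hδ => ?_⟩
  obtain ⟨C, κ, hC, hκ, h2⟩ := hE2 δ hδ
  refine ⟨C, κ, hC, hκ, fun α hα hαE f g k h s hs => ?_⟩
  obtain ⟨N₀, hN₀⟩ := h2 α hα hαE ((f, g), k) h s hs
  refine ⟨N₀, fun N hN => le_trans ?_ (hN₀ N hN)⟩
  rw [Nat.cast_le]
  refine card_le_card fun n hn => ?_
  replace hn := Pool.Agent.X20.Tr.mem_filt.1 hn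
  refine Pool.Agent.X20.Tr.mem_filt.2 ⟨hn.1, ?_⟩
  obtain ⟨x, hx1, hx2, a, hlt⟩ := hn.2
  refine ⟨x, hx1, hx2, a, ?_, ?_⟩
  · by_contra ha
    have hno : ∀ p ∈ (range (x + 1)).filter (fun p => p.Prime ∧ p ∈ P k), ∀ A B : ℤ, ¬ HasCoeff p a A B := by
      intro p hp A B h
      rw [mem_filter, mem_range] at hp
      apply ha
      rw [mem_Icc]
      exact abs_le.1 (coeff_le (by omega) h)
    have h1 : ∀ A B : ℤ, count (P k) A B a x = 0 := by
      intro A B
      unfold count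
      rw [card_eq_zero, filter_eq_empty_iff]
      intro p hp h
      exact hno p hp _ _ h
    have h2 : expected (P k) f g a x = 0 := by
      unfold expected
      refine sum_eq_zero fun p hp => ?_
      unfold proportion
      rw [filter_false_of_mem (fun u _ => hno p hp _ _), card_empty, Nat.cast_zero, zero_div]
    rw [h1, h2, Nat.cast_zero, sub_self, abs_zero] at hlt
    have : (0 : ℝ) ≤ √(max 1 0) * (x : ℝ) ^ δ := by positivity
    linarith
  · exact hlt

end Pool.Agent.Results.MP_631487_nt.SparseMembers
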